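import Pool.Agent.W541.DL.Defs

/-!
Statements of the parts of project DL (MP_cd6101_pr).
-/

namespace Pool.Agent.W541.DL

open MeasureTheory ProbabilityTheory Filter Topology

/-! ### Auxiliary definitions -/

/-- The clamp function. -/
noncomputable def cl (A v : ℝ) : ℝ := max (-A) (min A v)

/-- Paths staying in the corridor of half-width `β` around the diagonal starting at `x`. -/
def corr (n : ℕ) (x β : ℝ) : Set (ℕ → ℝ) :=
  {τ | Monotone τ ∧ τ 0 = x ∧ τ n = 1 + x ∧ ∀ k ≤ n, |τ k - x - (k : ℝ) / n| ≤ β}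

/-- Centred and rescaled (by the scale `n`) passage value through the lines `a, ..., a+m-1`. -/
noncomputable def bar (w : ℕ → ℝ → ℝ) (n a m : ℕ) (s t : ℝ) : ℝ :=
  (n : ℝ) ^ ((1 : ℝ) / 6) *
    (blpp (fun k => w (a + k)) m s t - Real.sqrt n * (t - s) - (m : ℝ) / Real.sqrt n)

/-- The environment at `ω`. -/
def env {Ω : Type} (W : ℕ → ℝ → Ω → ℝ) (ω : Ω) : ℕ → ℝ → ℝ := fun k t => W k t ω

/-- `c` is a uniform lower tightness constant. -/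
def TightC {Ω : Type} [MeasurableSpace Ω] (P : Measure Ω) (W : ℕ → ℝ → Ω → ℝ) (c : ℝ) : Prop :=
  0 ≤ c ∧ ∀ m : ℕ, 1 ≤ m → 1 / 2 ≤ P.real {ω | -c ≤ preSheet (env W ω) m 0 0}

/-! ### Deterministic facts on last passage values -/

/-- BDD: path values are bounded above. -/
def S_BDD : Prop := ∀ (w : ℕ → ℝ → ℝ) (n : ℕ) (s t : ℝ), (∀ k, Continuous (w k)) →
  BddAbove (pathVal w n '' paths n s t)

/-- SUPER: superadditivity. -/
def S_SUPER : Prop := ∀ (w : ℕ → ℝ → ℝ) (m m' : ℕ) (s t r : ℝ), (∀ k, Continuous (w k)) →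
  s ≤ t → t ≤ r → (m = 0 → s = t) → (m' = 0 → t = r) →
  blpp w m s t + blpp (fun k => w (m + k)) m' t r ≤ blpp w (m + m') s r

/-- SPLIT: a path through the point (time `p`, line `j`) splits. -/
def S_SPLIT : Prop := ∀ (w : ℕ → ℝ → ℝ) (n j : ℕ) (τ : ℕ → ℝ) (p : ℝ), (∀ k, Continuous (w k)) →
  Monotone τ → j < n → τ j ≤ p → p ≤ τ (j + 1) →
  pathVal w n τ ≤ blpp w (j + 1) (τ 0) p + blpp (fun k => w (j + k)) (n - j) p (τ n)

/-- EXIT: if the passage value is not attained in the corridor then it is bounded by the value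
through a point of the boundary. -/
def S_EXIT : Prop := ∀ (w : ℕ → ℝ → ℝ) (n : ℕ) (x β : ℝ), (∀ k, Continuous (w k)) → 1 ≤ n →
  0 ≤ β → supK w n (corr n x β) < blpp w n x (1 + x) →
  ∃ j < n, ∃ γ : ℝ, (γ = β + 1 / n ∨ γ = -β) ∧ 0 ≤ (j : ℝ) / n + γ ∧ (j : ℝ) / n + γ ≤ 1 ∧
    blpp w n x (1 + x) ≤ blpp w (j + 1) x (x + j / n + γ) +
      blpp (fun k => w (j + k)) (n - j) (x + j / n + γ) (1 + x)

/-- CLE: the corridor value is at most the passage value. -/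
def S_CLE : Prop := ∀ (w : ℕ → ℝ → ℝ) (n : ℕ) (x β : ℝ), (∀ k, Continuous (w k)) → 1 ≤ n →
  0 ≤ β → supK w n (corr n x β) ≤ blpp w n x (1 + x)

/-- SCD: Brownian scaling of last passage values, deterministic part. -/
def S_SCD : Prop := ∀ (w : ℕ → ℝ → ℝ) (a m : ℕ) (s d : ℝ), 0 < d →
  blpp (fun k => w (a + k)) m s (s + d) =
    Real.sqrt d * blpp (fun k t => (w (a + k) (s + d * t) - w (a + k) s) / Real.sqrt d) m 0 1

/-! ### Measurability, laws and independence -/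

/-- MEASK: measurability of the largest length over any set of paths. -/
def S_MEASK : Prop := ∀ (Ω : Type) (F : MeasurableSpace Ω) (W : ℕ → ℝ → Ω → ℝ) (n : ℕ)
  (K : Set (ℕ → ℝ)), (∀ k ω, Continuous (fun t => W k t ω)) →
  (∀ τ ∈ K, ∀ k < n, Measurable[F] (fun ω => W k (τ (k + 1)) ω - W k (τ k) ω)) →
  Measurable[F] (fun ω => supK (env W ω) n K)

/-- LAWK: the law of the largest length over `K` is the same for all Brownian environments. -/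
def S_LAWK : Prop := ∀ (Ω : Type) [MeasurableSpace Ω] (P : Measure Ω) (W W' : ℕ → ℝ → Ω → ℝ)
  (n : ℕ) (K : Set (ℕ → ℝ)), IsBM P W → IsBM P W' →
  IdentDistrib (fun ω => supK (env W ω) n K) (fun ω => supK (env W' ω) n K) P P

/-- SCB: shift of lines, shift of time and Brownian scaling. -/
def S_SCB : Prop := ∀ (Ω : Type) [MeasurableSpace Ω] (P : Measure Ω) (W : ℕ → ℝ → Ω → ℝ)
  (a : ℕ) (s d : ℝ), IsBM P W → 0 < d →
  IsBM P (fun k t ω => (W (a + k) (s + d * t) ω - W (a + k) s ω) / Real.sqrt d)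

/-- LINES: independence of the lines below `j` and the lines from `j` on. -/
def S_LINES : Prop := ∀ (Ω : Type) [MeasurableSpace Ω] (P : Measure Ω) (W : ℕ → ℝ → Ω → ℝ)
  (j : ℕ), IsBM P W →
  Indep (⨆ q : {q : ℕ × ℝ // q.1 < j}, MeasurableSpace.comap (W q.1.1 q.1.2) inferInstance)
    (⨆ q : {q : ℕ × ℝ // j ≤ q.1}, MeasurableSpace.comap (W q.1.1 q.1.2) inferInstance) P

/-- CORR: independence of the values in disjoint corridors. -/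
def S_CORR : Prop := ∀ (Ω : Type) [MeasurableSpace Ω] (P : Measure Ω) (W : ℕ → ℝ → Ω → ℝ)
  (n : ℕ) (x y β : ℝ), IsBM P W → 1 ≤ n → 0 ≤ β → x + 2 * β + 1 / n ≤ y →
  IndepFun (fun ω => supK (env W ω) n (corr n x β)) (fun ω => supK (env W ω) n (corr n y β)) P

/-- ONE: the one-point law of a full passage value. -/
def S_ONE : Prop := ∀ (Ω : Type) [MeasurableSpace Ω] (P : Measure Ω) (W : ℕ → ℝ → Ω → ℝ)
  (n : ℕ) (s d l : ℝ), IsBM P W → 1 ≤ n → 0 ≤ d →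
  P.real {ω | l ≤ bar (env W ω) n 0 n s (s + d)} =
    P.real {ω | l ≤ Real.sqrt d * preSheet (env W ω) n 0 0
      - (n : ℝ) ^ ((2 : ℝ) / 3) * (Real.sqrt d - 1) ^ 2}

/-- DIAG: lower bound for blocks of `m` lines on the diagonal. -/
def S_DIAG : Prop := ∀ (Ω : Type) [MeasurableSpace Ω] (P : Measure Ω) (W : ℕ → ℝ → Ω → ℝ)
  (c : ℝ) (n a m : ℕ) (s : ℝ), IsBM P W → TightC P W c → 1 ≤ n → m ≤ n →
  1 / 2 ≤ P.real {ω | -c ≤ bar (env W ω) n a m s (s + (m : ℝ) / n)}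

/-- OTT: a maximal inequality of Ottaviani type. -/
def S_OTT : Prop := ∀ (Ω : Type) [MeasurableSpace Ω] (P : Measure Ω) (N : ℕ) (c l : ℝ)
  (G : ℕ → MeasurableSpace Ω) (F E : ℕ → Ω → ℝ) (Full : Ω → ℝ), IsProbabilityMeasure P →
  Monotone G → (∀ j, G j ≤ ‹MeasurableSpace Ω›) → (∀ j < N, Measurable[G j] (F j)) →
  (∀ j < N, Measurable (E j)) →
  (∀ j < N, Indep (G j) (MeasurableSpace.comap (E j) inferInstance) P) →
  (∀ j < N, 1 / 2 ≤ P.real {ω | -c ≤ E j ω}) →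
  (∀ᵐ ω ∂P, ∀ j < N, l ≤ F j ω → F j ω + E j ω ≤ Full ω) →
  P.real {ω | ∃ j < N, l ≤ F j ω} ≤ 2 * P.real {ω | l - c ≤ Full ω}

/-- FWD: forward exit bound. -/
def S_FWD : Prop := ∀ (Ω : Type) [MeasurableSpace Ω] (P : Measure Ω) (W : ℕ → ℝ → Ω → ℝ)
  (c : ℝ) (n : ℕ) (x γ l : ℝ), IsBM P W → TightC P W c → 1 ≤ n →
  P.real {ω | ∃ j < n, 0 ≤ (j : ℝ) / n + γ ∧
      l ≤ bar (env W ω) n 0 (j + 1) x (x + j / n + γ)} ≤
    2 * P.real {ω | l - c ≤ bar (env W ω) n 0 n x (x + (1 - 1 / n + γ))}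

/-- BWD: backward exit bound. -/
def S_BWD : Prop := ∀ (Ω : Type) [MeasurableSpace Ω] (P : Measure Ω) (W : ℕ → ℝ → Ω → ℝ)
  (c : ℝ) (n : ℕ) (x γ l : ℝ), IsBM P W → TightC P W c → 1 ≤ n →
  P.real {ω | ∃ j < n, (j : ℝ) / n + γ ≤ 1 ∧
      l ≤ bar (env W ω) n j (n - j) (x + j / n + γ) (1 + x)} ≤
    2 * P.real {ω | l - c ≤ bar (env W ω) n 0 n (x + γ) (x + γ + (1 - γ))}

/-- EXITP: the probability that the passage value is relevant and not attained in the corridor. -/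
def S_EXITP : Prop := ∀ (Ω : Type) [MeasurableSpace Ω] (P : Measure Ω) (W : ℕ → ℝ → Ω → ℝ)
  (c A u : ℝ), IsBM P W → TightC P W c → 0 ≤ A → 0 < u → 2 * (A + 1) + 4 * c ≤ u ^ 2 →
  ∀ᶠ n : ℕ in atTop, ∀ x : ℝ,
    P.real {ω | supK (env W ω) n (corr n (2 * x / (n : ℝ) ^ ((1 : ℝ) / 3))
          (2 * u / (n : ℝ) ^ ((1 : ℝ) / 3))) <
        blpp (env W ω) n (2 * x / (n : ℝ) ^ ((1 : ℝ) / 3)) (1 + 2 * x / (n : ℝ) ^ ((1 : ℝ) / 3)) ∧
        -A < preSheet (env W ω) n x x} ≤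
      8 * P.real {ω | u ^ 2 / 8 ≤ preSheet (env W ω) n 0 0}

/-- COVN: decorrelation before the limit. -/
def S_COVN : Prop := ∀ (Ω : Type) [MeasurableSpace Ω] (P : Measure Ω) (W : ℕ → ℝ → Ω → ℝ)
  (c A u x y : ℝ), IsBM P W → TightC P W c → 0 ≤ A → 0 < u → 2 * (A + 1) + 4 * c ≤ u ^ 2 →
  x + (2 * u + 1) ≤ y →
  ∀ᶠ n : ℕ in atTop,
    |(∫ ω, cl A (preSheet (env W ω) n x x) * cl A (preSheet (env W ω) n y y) ∂P)
      - (∫ ω, cl A (preSheet (env W ω) n x x) ∂P) * ∫ ω, cl A (preSheet (env W ω) n y y) ∂P| ≤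
      64 * A ^ 2 * P.real {ω | u ^ 2 / 8 ≤ preSheet (env W ω) n 0 0}

/-- TIGHT: the existence of a tightness constant. -/
def S_TIGHT : Prop := ∀ (Ω' : Type) [MeasurableSpace Ω'] (P' : Measure Ω')
  (W : ℕ → ℝ → Ω' → ℝ) (Ω : Type) [MeasurableSpace Ω] (P : Measure Ω) (S : ℝ → ℝ → Ω → ℝ),
  IsBM P' W → IsProbabilityMeasure P → (∀ x y, Measurable (S x y)) → IsAirySheet P' W P S →
  ∃ c, TightC P' W c

/-- COV: decorrelation of the diagonal of the Airy sheet. -/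
def S_COV : Prop := ∀ (Ω' : Type) [MeasurableSpace Ω'] (P' : Measure Ω')
  (W : ℕ → ℝ → Ω' → ℝ) (Ω : Type) [MeasurableSpace Ω] (P : Measure Ω) (S : ℝ → ℝ → Ω → ℝ)
  (c A u x y : ℝ),
  IsBM P' W → IsProbabilityMeasure P → (∀ x y, Measurable (S x y)) → IsAirySheet P' W P S →
  TightC P' W c → 0 ≤ A → 0 < u → 2 * (A + 1) + 4 * c ≤ u ^ 2 → x + (2 * u + 1) ≤ y →
  |(∫ ω, cl A (S x x ω) * cl A (S y y ω) ∂P)
      - (∫ ω, cl A (S x x ω) ∂P) * ∫ ω, cl A (S y y ω) ∂P| ≤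
    64 * A ^ 2 * P.real {ω | u ^ 2 / 16 ≤ S 0 0 ω}

/-! ### The directed landscape -/

/-- LAWL: one-point laws of the directed landscape. -/
def S_LAWL : Prop := ∀ (Ω : Type) [MeasurableSpace Ω] (P : Measure Ω) (L : Ω → C(R4, ℝ)),
  IsDirectedLandscape P L → ∀ x y s t : ℝ, s < t →
  IdentDistrib (fun ω => val (L ω) x s y t)
    (fun ω => (t - s) ^ ((1 : ℝ) / 3) * val (L ω) 0 0 0 1 - (x - y) ^ 2 / (t - s)) P P

/-- TAIL: upper tail bound. -/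
def S_TAIL : Prop := ∀ (Ω : Type) [MeasurableSpace Ω] (P : Measure Ω) (L : Ω → C(R4, ℝ)),
  IsDirectedLandscape P L → ∃ C : ℝ, 0 < C ∧ ∀ r : ℝ, 0 < r →
    P.real {ω | r ≤ val (L ω) 0 0 0 1} ≤ C / r ^ 3

/-- The statistic: the sum of the clamped values over the cells of height `1/m^9` and width
`3/m^5` in `[x0, x0+ρ] × [t0, t0+ρ]`. -/
noncomputable def cellv (f : R4 → ℝ) (x0 t0 : ℝ) (m i j : ℕ) : ℝ :=
  val f (x0 + 3 * i / m ^ 5) (t0 + j / m ^ 9) (x0 + 3 * i / m ^ 5) (t0 + (j + 1) / m ^ 9)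

/-- Number of cells in a strip. -/
noncomputable def nI (ρ : ℝ) (m : ℕ) : ℕ := ⌊ρ * m ^ 5 / 3⌋₊

/-- Number of strips. -/
noncomputable def nJ (ρ : ℝ) (m : ℕ) : ℕ := ⌊ρ * m ^ 9⌋₊

/-- The statistic for real functions. -/
noncomputable def stat (f : R4 → ℝ) (A x0 t0 ρ : ℝ) (m : ℕ) : ℝ :=
  ∑ j ∈ Finset.range (nJ ρ m), ∑ i ∈ Finset.range (nI ρ m), cl A (m ^ 3 * cellv f x0 t0 m i j)

/-- STRIP: variance of the sum over one strip. -/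
def S_STRIP : Prop := ∀ (Ω : Type) [MeasurableSpace Ω] (P : Measure Ω) (L : Ω → C(R4, ℝ)),
  IsDirectedLandscape P L → ∀ A : ℝ, 0 < A → ∀ x0 t0 ρ : ℝ, 0 < ρ →
  ∃ C : ℝ, 0 < C ∧ ∀ᶠ m : ℕ in atTop, ∀ j : ℕ,
    Var[fun ω => ∑ i ∈ Finset.range (nI ρ m), cl A (m ^ 3 * cellv (L ω) x0 t0 m i j); P]
      ≤ C * m ^ 5

/-- VAR: variance of the statistic. -/
def S_VAR : Prop := ∀ (Ω : Type) [MeasurableSpace Ω] (P : Measure Ω) (L : Ω → C(R4, ℝ)),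
  IsDirectedLandscape P L → ∀ A : ℝ, 0 < A → ∀ x0 t0 ρ : ℝ, 0 < ρ →
  ∃ C : ℝ, 0 < C ∧ ∀ᶠ m : ℕ in atTop,
    Var[fun ω => stat (L ω) A x0 t0 ρ m; P] ≤ C * m ^ 14

/-- OTTL: maximal inequalities in the directed landscape. -/
def S_OTTL : Prop := ∀ (Ω : Type) [MeasurableSpace Ω] (P : Measure Ω) (L : Ω → C(R4, ℝ)) (c : ℝ),
  IsDirectedLandscape P L → 0 ≤ c → 1 / 2 ≤ P.real {ω | -c ≤ val (L ω) 0 0 0 1} →
  ∀ x s b e l : ℝ, 0 < e →
    P.real {ω | ∃ r, s < r ∧ r < s + e ∧ l ≤ val (L ω) x s b r} ≤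
      2 * P.real {ω | l - 1 - c * e ^ ((1 : ℝ) / 3) ≤ val (L ω) x s b (s + e)} ∧
    P.real {ω | ∃ r, s < r ∧ r < s + e ∧ l ≤ val (L ω) b r x (s + e)} ≤
      2 * P.real {ω | l - 1 - c * e ^ ((1 : ℝ) / 3) ≤ val (L ω) b s x (s + e)}

/-- EXL: paths making a macroscopic excursion during a short time are too short. -/
def S_EXL : Prop := ∀ (Ω : Type) [MeasurableSpace Ω] (P : Measure Ω) (L : Ω → C(R4, ℝ)),
  IsDirectedLandscape P L → ∀ δ η : ℝ, 0 < δ → 0 < η →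
  ∃ e0 : ℝ, 0 < e0 ∧ ∀ e : ℝ, 0 < e → e < e0 → ∀ x s b : ℝ, δ ≤ |b - x| →
    P.real {ω | ∃ r, s < r ∧ r < s + e ∧
      -2 ≤ val (L ω) x s b r + val (L ω) b r x (s + e)} ≤ η

/-- SHIFT: upper bounds for the shifted function. -/
def S_SHIFT : Prop := ∀ (h : ℝ × ℝ → ℝ) (H c : ℝ) (f : R4 → ℝ) (x s e a b : ℝ) (he : 0 < e),
  Continuous h → (∀ q, h q ≤ H) → 0 ≤ H → a < x → x < b →
  (∀ z r, a ≤ z → z ≤ b → s ≤ r → r ≤ s + e → h (z, r) ≤ -c) →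
  shiftVal h f ⟨((x, s), (x, s + e)), by simpa using he⟩ ≤ ((val f x s x (s + e) + H * e : ℝ) : EReal) ∧
  ((∀ r, s < r → r < s + e → ∀ q : ℝ, (q = a ∨ q = b) →
      val f x s q r + val f q r x (s + e) + H * e ≤ val f x s x (s + e) - c * e) →
    shiftVal h f ⟨((x, s), (x, s + e)), by simpa using he⟩ ≤
      ((val f x s x (s + e) - c * e : ℝ) : EReal))

/-! ### Final assembly -/

/-- `F(x,s;y,t)` for extended real valued functions. -/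
noncomputable def valE (F : R4 → EReal) (x s y t : ℝ) : EReal :=
  if h : s < t then F ⟨((x, s), (y, t)), h⟩ else 0

/-- The clamp function on the extended reals. -/
noncomputable def clE (A : ℝ) (v : EReal) : ℝ :=
  (max ((-A : ℝ) : EReal) (min ((A : ℝ) : EReal) v)).toReal

/-- The statistic for extended real valued functions. -/
noncomputable def statE (F : R4 → EReal) (A x0 t0 ρ : ℝ) (m : ℕ) : ℝ :=
  ∑ j ∈ Finset.range (nJ ρ m), ∑ i ∈ Finset.range (nI ρ m), (m : ℝ) ^ 3 *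
    clE (A / (m : ℝ) ^ 3) (valE F (x0 + 3 * i / m ^ 5) (t0 + j / m ^ 9) (x0 + 3 * i / m ^ 5)
      (t0 + (j + 1) / m ^ 9))

/-- STE: the extended statistic is measurable and extends the real one. -/
def S_STE : Prop := ∀ (A x0 t0 ρ : ℝ) (m : ℕ), 0 < A → 1 ≤ m →
  Measurable (fun F : R4 → EReal => statE F A x0 t0 ρ m) ∧
  ∀ f : R4 → ℝ, statE (fun p => ((f p : ℝ) : EReal)) A x0 t0 ρ m = stat f A x0 t0 ρ m

/-- A cell is good if the clamp is inactive and macroscopic excursions are too short. -/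
def GoodCell (f : R4 → ℝ) (A H c a b x0 t0 : ℝ) (m i j : ℕ) : Prop :=
  |(m : ℝ) ^ 3 * cellv f x0 t0 m i j| ≤ A - 1 ∧
  ∀ r : ℝ, t0 + j / m ^ 9 < r → r < t0 + (j + 1) / m ^ 9 → ∀ q : ℝ, (q = a ∨ q = b) →
    val f (x0 + 3 * i / m ^ 5) (t0 + j / m ^ 9) q r +
      val f q r (x0 + 3 * i / m ^ 5) (t0 + (j + 1) / m ^ 9) + H / m ^ 9 ≤
      cellv f x0 t0 m i j - c / m ^ 9

open Classical in
/-- The number of cells which are not good. -/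
noncomputable def nBad (f : R4 → ℝ) (A H c a b x0 t0 ρ : ℝ) (m : ℕ) : ℕ :=
  ((Finset.range (nJ ρ m) ×ˢ Finset.range (nI ρ m)).filter
    (fun z => ¬ GoodCell f A H c a b x0 t0 m z.2 z.1)).card

/-- PATHW: pathwise comparison of the statistics of `f` and of its shift. -/
def S_PATHW : Prop := ∀ (h : ℝ × ℝ → ℝ) (f : R4 → ℝ) (A H c a b x0 t0 ρ : ℝ) (m : ℕ),
  Continuous h → (∀ q, h q ≤ H) → 0 ≤ H → 0 < c → a < x0 → x0 + ρ < b → 0 < ρ → 1 ≤ A → 1 ≤ m →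
  c ≤ (m : ℝ) ^ 6 →
  (∀ z r, a ≤ z → z ≤ b → t0 ≤ r → r ≤ t0 + ρ → h (z, r) ≤ -c) →
  statE (shiftVal h f) A x0 t0 ρ m ≤ stat f A x0 t0 ρ m +
    ((H + c) * nBad f A H c a b x0 t0 ρ m - c * (nJ ρ m * nI ρ m : ℕ)) / (m : ℝ) ^ 6

/-- BADC: cells are good with large probability. -/
def S_BADC : Prop := ∀ (Ω : Type) [MeasurableSpace Ω] (P : Measure Ω) (L : Ω → C(R4, ℝ)),
  IsDirectedLandscape P L → ∀ H c a b x0 t0 ρ η : ℝ, 0 ≤ H → 0 < c → a < x0 → x0 + ρ < b →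
  0 < ρ → 0 < η → ∃ A : ℝ, 1 ≤ A ∧ ∀ᶠ m : ℕ in atTop, ∀ j < nJ ρ m, ∀ i < nI ρ m,
    P.real {ω | ¬ GoodCell (L ω) A H c a b x0 t0 m i j} ≤ η

/-- NBAD: the number of bad cells is small with large probability. -/
def S_NBAD : Prop := ∀ (Ω : Type) [MeasurableSpace Ω] (P : Measure Ω) (f : Ω → R4 → ℝ)
  (A H c a b x0 t0 ρ η κ : ℝ) (m : ℕ), IsProbabilityMeasure P → 0 < η → 0 < κ →
  (∀ j < nJ ρ m, ∀ i < nI ρ m, P.real {ω | ¬ GoodCell (f ω) A H c a b x0 t0 m i j} ≤ η) →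
  P.real {ω | κ * (nJ ρ m * nI ρ m : ℕ) < nBad (f ω) A H c a b x0 t0 ρ m} ≤ η / κ

/-- SEP: the statistics separate the laws. -/
def S_SEP : Prop := ∀ (Ω : Type) [MeasurableSpace Ω] (P : Measure Ω) (L : Ω → C(R4, ℝ)),
  IsDirectedLandscape P L → ∀ (h : ℝ × ℝ → ℝ) (H c a b x0 t0 ρ : ℝ),
  Continuous h → (∀ q, h q ≤ H) → 0 ≤ H → 0 < c → a < x0 → x0 + ρ < b → 0 < ρ →
  (∀ z r, a ≤ z → z ≤ b → t0 ≤ r → r ≤ t0 + ρ → h (z, r) ≤ -c) →
  ∀ η : ℝ, 0 < η → ∃ (A θ : ℝ) (m : ℕ), 0 < A ∧ 1 ≤ m ∧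
    P.real {ω | stat (L ω) A x0 t0 ρ m < θ} ≤ η ∧
    P.real {ω | θ ≤ statE (shiftVal h (L ω)) A x0 t0 ρ m} ≤ η

/-- SING: an abstract criterion for singularity. -/
def S_SING : Prop := ∀ (Ω V : Type) [MeasurableSpace Ω] [MeasurableSpace V] (P : Measure Ω)
  (X Y : Ω → V), IsProbabilityMeasure P → Measurable X →
  (∀ η : ℝ, 0 < η → ∃ (g : V → ℝ) (θ : ℝ), Measurable g ∧
    P.real {ω | g (X ω) < θ} ≤ η ∧ P.real {ω | θ ≤ g (Y ω)} ≤ η) →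
  ∃ U : Set V, MeasurableSet U ∧ (∀ᵐ ω ∂P, X ω ∈ U) ∧ (∀ᵐ ω ∂P, Y ω ∉ U)

end Pool.Agent.W541.DL
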