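import Pool.Agent.W541.DL.Final
import Pool.Agent.W790.DL.MEASK
import Pool.Agent.W885.DL.LAWK
import Pool.Agent.W915.DL.LAWL
import Pool.Agent.W804.DL.TAIL
import Pool.Agent.W7.DL.OTTL
import Pool.Agent.W594.DL.EXITP
import Pool.Agent.W89.DL.FWD
import Pool.Agent.W32.DL.BWD
import Pool.Agent.W193.DL.CORR
import Pool.Agent.W702.DL.LINES
import Pool.Agent.W509.DL.COVN
import Pool.Agent.W101.DL.COV
import Pool.Agent.W370.DL.STRIP
import Pool.Agent.W431.DL.SHIFT
import Pool.Agent.W605.DL.SEP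
import Pool.Agent.W67.DL.PATHW
import Pool.Agent.W621.DL.EXIT
import Pool.Agent.W599.DL.SUPER
import Pool.Agent.W571.DL.SPLIT
import Pool.Agent.W509.DL.ONE
import Pool.Agent.W391.DL.DIAG
import Pool.Agent.W571.DL.SCB
import Pool.Agent.W494.DL.OTT
import Pool.Agent.W721.DL.EXL
import Pool.Agent.W721.DL.BADC
import Pool.Agent.W155.DL.TIGHT
import Pool.Agent.W205.DL.VAR
import Pool.Agent.W74.DL.NBAD
import Pool.Agent.W496.DL.SING
import Pool.Agent.W705.DL.STE
import Pool.Agent.W919.DL.SCD
import Pool.Agent.W639.DL.BDD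
import Pool.Agent.W315.DL.CLE

namespace Pool.Agent.W541.DL

theorem bdd : S_BDD := Pool.Agent.W639.DL.BDD.main
theorem super : S_SUPER := Pool.Agent.W599.DL.SUPER.main bdd
theorem split : S_SPLIT := Pool.Agent.W571.DL.SPLIT.main bdd
theorem exit : S_EXIT := Pool.Agent.W621.DL.EXIT.main bdd split
theorem cle : S_CLE := Pool.Agent.W315.DL.CLE.main bdd
theorem scd : S_SCD := Pool.Agent.W919.DL.SCD.main
theorem scb : S_SCB := Pool.Agent.W571.DL.SCB.main
theorem meask : S_MEASK := Pool.Agent.W790.DL.MEASK.main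
theorem lawk : S_LAWK := Pool.Agent.W885.DL.LAWK.main
theorem lines : S_LINES := Pool.Agent.W702.DL.LINES.main
theorem corrI : S_CORR := Pool.Agent.W193.DL.CORR.main meask
theorem one : S_ONE := Pool.Agent.W509.DL.ONE.main lawk scb scd
theorem diag : S_DIAG := Pool.Agent.W391.DL.DIAG.main lawk scb scd
theorem ott : S_OTT := Pool.Agent.W494.DL.OTT.main
theorem fwd : S_FWD := Pool.Agent.W89.DL.FWD.main super diag ott lines meask
theorem bwd : S_BWD := Pool.Agent.W32.DL.BWD.main super diag ott lines meask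
theorem exitp : S_EXITP := Pool.Agent.W594.DL.EXITP.main exit fwd bwd one
theorem covn : S_COVN := Pool.Agent.W509.DL.COVN.main exitp corrI meask cle
theorem tight : S_TIGHT := Pool.Agent.W155.DL.TIGHT.main
theorem cov : S_COV := Pool.Agent.W101.DL.COV.main covn meask
theorem lawl : S_LAWL := Pool.Agent.W915.DL.LAWL.main one meask
theorem tail : S_TAIL := Pool.Agent.W804.DL.TAIL.main lawl
theorem strip : S_STRIP := Pool.Agent.W370.DL.STRIP.main cov tail tight lawl
theorem var : S_VAR := Pool.Agent.W205.DL.VAR.main strip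
theorem ottl : S_OTTL := Pool.Agent.W7.DL.OTTL.main ott lawl
theorem exl : S_EXL := Pool.Agent.W721.DL.EXL.main ottl lawl
theorem badc : S_BADC := Pool.Agent.W721.DL.BADC.main exl lawl
theorem shift : S_SHIFT := Pool.Agent.W431.DL.SHIFT.main
theorem ste : S_STE := Pool.Agent.W705.DL.STE.main
theorem pathw : S_PATHW := Pool.Agent.W67.DL.PATHW.main shift ste
theorem nbad : S_NBAD := Pool.Agent.W74.DL.NBAD.main
theorem sep : S_SEP := Pool.Agent.W605.DL.SEP.main var pathw badc nbad
theorem sing : S_SING := Pool.Agent.W496.DL.SING.main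

end Pool.Agent.W541.DL
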