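import Mathlib

/-!
Definitions for the problem on Cameron-Martin type shifts of the directed landscape
(MP_cd6101_pr).
-/

namespace Pool.Agent.W541.DL

open MeasureTheory ProbabilityTheory Filter Topology

/-! ### Brownian last passage percolation and the Airy sheet -/

/-- `W 0, W 1, W 2, ...` are independent standard two-sided Brownian motions: a centred Gaussian
process on `ℕ × ℝ` with continuous paths and
`E[W_j(s) W_k(t)] = 1_{j = k} (|s| + |t| - |s - t|) / 2`. -/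
structure IsBM {Ω : Type} [MeasurableSpace Ω] (P : Measure Ω) (W : ℕ → ℝ → Ω → ℝ) : Prop where
  meas : ∀ k t, Measurable (W k t)
  cont : ∀ k ω, Continuous (fun t => W k t ω)
  gauss : IsGaussianProcess (fun (p : ℕ × ℝ) (ω : Ω) => W p.1 p.2 ω) P
  mean : ∀ k t, ∫ ω, W k t ω ∂P = 0
  cov : ∀ j k s t, ∫ ω, W j s ω * W k t ω ∂P = if j = k then (|s| + |t| - |s - t|) / 2 else 0

/-- Up-right paths through `n` lines `0, ..., n-1` from time `s` to time `t`: the path is on line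
`k` during `[τ k, τ (k+1)]`. -/
def paths (n : ℕ) (s t : ℝ) : Set (ℕ → ℝ) := {τ | Monotone τ ∧ τ 0 = s ∧ τ n = t}

/-- The length of an up-right path in the environment `w`. -/
noncomputable def pathVal (w : ℕ → ℝ → ℝ) (n : ℕ) (τ : ℕ → ℝ) : ℝ :=
  ∑ k ∈ Finset.range n, (w k (τ (k + 1)) - w k (τ k))

/-- The largest length of a path in the set `K`. -/
noncomputable def supK (w : ℕ → ℝ → ℝ) (n : ℕ) (K : Set (ℕ → ℝ)) : ℝ := sSup (pathVal w n '' K)

/-- Last passage value through the lines `0, ..., n-1` from time `s` to time `t`. -/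
noncomputable def blpp (w : ℕ → ℝ → ℝ) (n : ℕ) (s t : ℝ) : ℝ := supK w n (paths n s t)

/-- The rescaled last passage value
`n^(1/6) (B[(2x n^(-1/3), 1) -> (1 + 2y n^(-1/3), n)] - 2 n^(1/2) - 2 (y-x) n^(1/6))`. -/
noncomputable def preSheet (w : ℕ → ℝ → ℝ) (n : ℕ) (x y : ℝ) : ℝ :=
  (n : ℝ) ^ ((1 : ℝ) / 6) *
    (blpp w n (2 * x / (n : ℝ) ^ ((1 : ℝ) / 3)) (1 + 2 * y / (n : ℝ) ^ ((1 : ℝ) / 3))
      - 2 * Real.sqrt n - 2 * (y - x) * (n : ℝ) ^ ((1 : ℝ) / 6))

/-- The random function `S` is the two-parameter scaling limit of Brownian last passage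
percolation (in the environment `W`): its paths are continuous and its finite-dimensional
distributions are the limits of those of the rescaled last passage values. -/
def IsAirySheet {Ω' : Type} [MeasurableSpace Ω'] (P' : Measure Ω') (W : ℕ → ℝ → Ω' → ℝ)
    {Ω : Type} [MeasurableSpace Ω] (P : Measure Ω) (S : ℝ → ℝ → Ω → ℝ) : Prop :=
  (∀ ω, Continuous (fun q : ℝ × ℝ => S q.1 q.2 ω)) ∧
  ∀ (m : ℕ) (q : Fin m → ℝ × ℝ) (f : (Fin m → ℝ) → ℝ), Continuous f → (∃ C, ∀ v, |f v| ≤ C) →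
    Tendsto (fun n : ℕ => ∫ ω, f (fun i => preSheet (fun k t => W k t ω) n (q i).1 (q i).2) ∂P')
      atTop (𝓝 (∫ ω, f (fun i => S (q i).1 (q i).2 ω) ∂P))

/-! ### The directed landscape -/

/-- The points `(x,s;y,t)` with `s < t`, coded as `((x,s),(y,t))`. -/
abbrev R4 : Type := {p : (ℝ × ℝ) × (ℝ × ℝ) // p.1.2 < p.2.2}

/-- `f(x,s;y,t)` for `s < t` (and `0` otherwise). -/
noncomputable def val (f : R4 → ℝ) (x s y t : ℝ) : ℝ :=
  if h : s < t then f ⟨((x, s), (y, t)), h⟩ else 0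

/-- The sigma-algebra generated by the restriction of `L` to the time interval `[a,b]`. -/
@[reducible] def sig {Ω : Type} (L : Ω → C(R4, ℝ)) (a b : ℝ) : MeasurableSpace Ω :=
  ⨆ p : {p : R4 // a ≤ p.1.1.2 ∧ p.1.2.2 ≤ b},
    MeasurableSpace.comap (fun ω => L ω p.1) inferInstance

/-- `L` is a directed landscape on the probability space `(Ω, P)`. -/
structure IsDirectedLandscape {Ω : Type} [MeasurableSpace Ω] (P : Measure Ω)
    (L : Ω → C(R4, ℝ)) : Prop where
  prob : IsProbabilityMeasure P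
  meas : ∀ p : R4, Measurable (fun ω => L ω p)
  /-- Airy sheet marginals: `L(x,s;y,s+t^3)` has the law of `t S(x/t^2, y/t^2)`. -/
  airy : ∃ (Ω' : Type) (_ : MeasurableSpace Ω') (P' : Measure Ω') (W : ℕ → ℝ → Ω' → ℝ),
    IsBM P' W ∧ ∀ s t : ℝ, 0 < t →
      IsAirySheet P' W P (fun x y ω => t⁻¹ * val (L ω) (t ^ 2 * x) s (t ^ 2 * y) (s + t ^ 3))
  /-- Independent increments. -/
  indep : ∀ (m : ℕ) (a b : Fin m → ℝ), (∀ i j, i < j → b i ≤ a j) →
    iIndep (fun i => sig L (a i) (b i)) P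
  /-- Metric composition. -/
  comp : ∀ᵐ ω ∂P, ∀ x y r s t : ℝ, r < s → s < t →
    IsGreatest (Set.range fun z => val (L ω) x r z s + val (L ω) z s y t) (val (L ω) x r y t)

/-! ### Path lengths and the shift -/

/-- The length of the path `g` on `[s,t]` with respect to `f`: the infimum over all partitions
`s = τ 0 < ... < τ n = t` of the sums of `f(g(τ i), τ i; g(τ (i+1)), τ (i+1))`. -/
noncomputable def len (f : R4 → ℝ) (g : ℝ → ℝ) (s t : ℝ) : EReal :=
  ⨅ (q : {q : ℕ × (ℕ → ℝ) // (∀ i < q.1, q.2 i < q.2 (i + 1)) ∧ q.2 0 = s ∧ q.2 q.1 = t}),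
    ((∑ i ∈ Finset.range q.1.1,
      val f (g (q.1.2 i)) (q.1.2 i) (g (q.1.2 (i + 1))) (q.1.2 (i + 1)) : ℝ) : EReal)

/-- The `h`-shift of `f` at the point `(x,s;y,t)`: the supremum over all continuous paths `g` from
`(x,s)` to `(y,t)` of the length of `g` plus the integral of `h(g(r),r)` over `[s,t]`. -/
noncomputable def shiftVal (h : ℝ × ℝ → ℝ) (f : R4 → ℝ) (p : R4) : EReal :=
  ⨆ (g : {g : ℝ → ℝ // ContinuousOn g (Set.Icc p.1.1.2 p.1.2.2) ∧ g p.1.1.2 = p.1.1.1 ∧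
      g p.1.2.2 = p.1.2.1}),
    (len f g.1 p.1.1.2 p.1.2.2 + ((∫ r in p.1.1.2..p.1.2.2, h (g.1 r, r) : ℝ) : EReal))

end Pool.Agent.W541.DL
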