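import Pool.Agent.W541.DL.Stm

namespace Pool.Agent.W541.DL

open MeasureTheory ProbabilityTheory Filter Topology


/-- The conclusion for a given `h`. -/
def Concl (h : ℝ × ℝ → ℝ) : Prop :=
  ∀ (Ω : Type) [MeasurableSpace Ω] (P : Measure Ω) (L : Ω → C(R4, ℝ)),
    IsDirectedLandscape P L →
    (∃ U : Set (R4 → EReal), MeasurableSet U ∧
      (∀ᵐ ω ∂P, (fun p => ((L ω p : ℝ) : EReal)) ∈ U) ∧ (∀ᵐ ω ∂P, shiftVal h (L ω) ∉ U)) ∧
    (∀ L' : Ω → C(R4, ℝ), (∀ᵐ ω ∂P, ∀ p : R4, ((L' ω p : ℝ) : EReal) = shiftVal h (L ω) p) →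
      ∃ U : Set C(R4, ℝ), MeasurableSet[borel C(R4, ℝ)] U ∧
        P {ω | L ω ∈ U} = 1 ∧ P {ω | L' ω ∈ U} = 0)

theorem box (h : ℝ × ℝ → ℝ) (hc : Continuous h) (q : ℝ × ℝ) (hq : h q < 0) :
    ∃ (c a b x0 t0 ρ : ℝ), 0 < c ∧ a < x0 ∧ x0 + ρ < b ∧ 0 < ρ ∧
      ∀ z r, a ≤ z → z ≤ b → t0 ≤ r → r ≤ t0 + ρ → h (z, r) ≤ -c := by
  have hcq : ContinuousAt h q := hc.continuousAt
  have h1 : ∀ᶠ p in 𝓝 q, h p < h q / 2 := hcq.eventually_lt continuousAt_const (by linarith)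
  obtain ⟨δ, hδ, hball⟩ := Metric.eventually_nhds_iff.1 h1
  refine ⟨-h q / 2, q.1 - δ / 2, q.1 + δ / 2, q.1, q.2, δ / 4, by linarith, by linarith,
    by linarith, by linarith, fun z r h1 h2 h3 h4 => ?_⟩
  have : h (z, r) < h q / 2 := hball (by
    rw [Prod.dist_eq, max_lt_iff, Real.dist_eq, Real.dist_eq, abs_lt, abs_lt]
    constructor <;> constructor <;> simp only <;> linarith)
  linarith

theorem concl (hSep : S_SEP) (hSing : S_SING) (hSTE : S_STE) (h : ℝ × ℝ → ℝ)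
    (h1 : Continuous h) (h2 : HasCompactSupport h) (q : ℝ × ℝ) (hq : h q < 0) : Concl h := by
  intro Ω _ P L hL
  have hP : IsProbabilityMeasure P := hL.prob
  obtain ⟨H0, hH0⟩ := h2.exists_bound_of_continuous h1
  have hH : ∀ q, h q ≤ |H0| := fun q => (le_abs_self _).trans
    (((Real.norm_eq_abs _).symm.le.trans (hH0 q)).trans (le_abs_self _))
  obtain ⟨c, a, b, x0, t0, ρ, hc, ha, hb, hρ, hbox⟩ := box h h1 q hq
  have key := hSep Ω P L hL h |H0| c a b x0 t0 ρ h1 hH (abs_nonneg _) hc ha hb hρ hbox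
  have hmeas : Measurable (fun ω => (fun p : R4 => ((L ω p : ℝ) : EReal))) := by
    refine measurable_pi_lambda _ (fun p => ?_)
    exact measurable_coe_real_ereal.comp (hL.meas p)
  obtain ⟨U, hU, hU1, hU2⟩ := hSing Ω (R4 → EReal) P
    (fun ω => (fun p : R4 => ((L ω p : ℝ) : EReal))) (fun ω => shiftVal h (L ω)) hP hmeas (by
      intro η hη
      obtain ⟨A, θ, m, hA, hm, hs1, hs2⟩ := key η hη
      obtain ⟨hm1, hm2⟩ := hSTE A x0 t0 ρ m hA hm
      refine ⟨fun F => statE F A x0 t0 ρ m, θ, hm1, ?_, hs2⟩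
      simpa only [hm2] using hs1)
  refine ⟨⟨U, hU, hU1, hU2⟩, fun L' hL' => ?_⟩
  refine ⟨{f : C(R4, ℝ) | (fun p : R4 => ((f p : ℝ) : EReal)) ∈ U}, ?_, ?_, ?_⟩
  · have hm : @Measurable C(R4, ℝ) (R4 → EReal) (borel _) _
        (fun f => (fun p : R4 => ((f p : ℝ) : EReal))) := by
      let _ : MeasurableSpace C(R4, ℝ) := borel _
      have : BorelSpace C(R4, ℝ) := ⟨rfl⟩
      refine measurable_pi_lambda _ (fun p => ?_)
      exact measurable_coe_real_ereal.comp (continuous_eval_const p).measurable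
    exact hm hU
  · have : ∀ᵐ ω ∂P, ω ∈ {ω | L ω ∈ {f : C(R4, ℝ) | (fun p : R4 => ((f p : ℝ) : EReal)) ∈ U}} := by
      filter_upwards [hU1] with ω hω
      exact hω
    exact (prob_compl_eq_zero_iff (hmeas hU)).1 this
  · have : ∀ᵐ ω ∂P, ω ∉ {ω | L' ω ∈ {f : C(R4, ℝ) | (fun p : R4 => ((f p : ℝ) : EReal)) ∈ U}} := by
      filter_upwards [hU2, hL'] with ω hω hω'
      intro hmem
      apply hω
      have : shiftVal h (L ω) = fun p : R4 => ((L' ω p : ℝ) : EReal) := funext (fun p => (hω' p).symm)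
      rw [this]
      exact hmem
    rw [ae_iff] at this
    simpa using this

/-- There are smooth functions with compact support taking negative values. -/
theorem exists_h : ∃ h : ℝ × ℝ → ℝ, ContDiff ℝ (⊤ : ℕ∞) h ∧ HasCompactSupport h ∧ ∃ q, h q < 0 := by
  obtain ⟨f⟩ : Nonempty (ContDiffBump (0 : ℝ × ℝ)) := ⟨⟨1, 2, by norm_num, by norm_num⟩⟩
  refine ⟨fun p => -(f p), f.contDiff.neg, ?_, 0, ?_⟩
  · have := f.hasCompactSupport
    exact this.neg
  · have : f (0 : ℝ × ℝ) = 1 := f.one_of_mem_closedBall (by simp [f.rIn_pos.le])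
    simp [this]

end Pool.Agent.W541.DL
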